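import Pool.Agent.Work.MP_db9399_ts_helper46.TLOC
import Pool.Agent.Work.MP_db9399_nc_helper54.PLAN

/-!
# MP_db9399, tight spots: a total colouring of the graph without the inner edges of a tight spot
gives a total colouring of the graph
-/

set_option autoImplicit false

namespace Pool.Agent.Work.MP_db9399_ts.helper46

open Finset Classical
open Pool.Agent.Work.MP_db9399_all (nb)
open Pool.Agent.Work.MP_db9399_nc

universe u

variable {V : Type u} [Fintype V]

/-- total colouring of `G` with `k` colours extending the precolouring -/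
structure TC (G : SimpleGraph V) (k : ℕ) (hp : V → V) (c0 g c : V → ℕ) (t : V → V → ℕ) :
    Prop where
  clt : ∀ v, c v < k
  cadj : ∀ v w, G.Adj v w → c v ≠ c w
  sym : ∀ v w, t v w = t w v
  tlt : ∀ v w, G.Adj v w → t v w < k
  tc : ∀ v w, G.Adj v w → t v w ≠ c v
  inj : ∀ v, Set.InjOn (t v) (nb G v : Set V)
  hc : ∀ v, hp v ≠ v → c v = c0 v
  ht : ∀ v, hp v ≠ v → t v (hp v) = g v

/-- `G` without the edges inside `Y` which are not in `H` -/
def cutg (G : SimpleGraph V) (hp : V → V) (Y : Finset V) : SimpleGraph V where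
  Adj v w := G.Adj v w ∧ (v ∉ Y ∨ w ∉ Y ∨ hp v = w ∨ hp w = v)
  symm := ⟨fun _ _ h => ⟨h.1.symm, by tauto⟩⟩
  loopless := ⟨fun v h => G.loopless.irrefl v h.1⟩

/-- tight spots -/
structure Tight (G : SimpleGraph V) (x : ℕ) (Y : Finset V) : Prop where
  inn : ∀ v ∈ Y, (nn G Y v).card ≤ x
  sz : 2 * x + 3 ≤ Y.card
  bnd : 1000 * ∑ v ∈ Y, (nb G v \ Y).card ≤ Y.card

theorem card_split (G : SimpleGraph V) (Y : Finset V) (v : V) (hv : v ∈ Y) :
    Y.card = 1 + (nb G v ∩ Y).card + (nn G Y v).card := by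
  have h1 : Y = insert v ((nb G v ∩ Y) ∪ nn G Y v) := by
    ext w
    simp only [Finset.mem_insert, Finset.mem_union, Finset.mem_inter, mem_nb, mem_nn]
    constructor
    · intro hw
      by_cases h : w = v
      · exact Or.inl h
      · by_cases h' : G.Adj v w
        · exact Or.inr (Or.inl ⟨h', hw⟩)
        · exact Or.inr (Or.inr ⟨hw, h, h'⟩)
    · rintro (h | h | h)
      · rw [h]; exact hv
      · exact h.2
      · exact h.1
  have h2 : v ∉ (nb G v ∩ Y) ∪ nn G Y v := by
    simp [mem_nb, mem_nn]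
  have h3 : Disjoint (nb G v ∩ Y) (nn G Y v) := by
    rw [Finset.disjoint_left]
    intro w hw hw'
    rw [Finset.mem_inter, mem_nb] at hw
    rw [mem_nn] at hw'
    exact hw'.2.2 hw.1
  have h4 : Y.card = (insert v ((nb G v ∩ Y) ∪ nn G Y v)).card := by rw [← h1]
  rw [h4, Finset.card_insert_of_notMem h2, Finset.card_union_of_disjoint h3]
  omega

theorem deg_split' (G : SimpleGraph V) (Y : Finset V) (v : V) :
    (nb G v).card = (nb G v ∩ Y).card + (nb G v \ Y).card := by
  have := Finset.card_inter_add_card_sdiff (nb G v) Y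
  omega

/-- a tight spot meets at most one component of `H` -/
theorem tpair {G : SimpleGraph V} {k x : ℕ} {hp : V → V} {c0 g : V → ℕ} {Y : Finset V}
    (hH : HD G k hp c0 g) (hT : Tight G x Y) {v w : V} (hv : v ∈ Y) (hw : w ∈ Y)
    (hpv : hp v ≠ v) (hpw : hp w ≠ w) (hvw : v ≠ w) : w = hp v := by
  by_contra hne
  obtain ⟨hna, hz⟩ := hH.far v w hpv hpw hvw hne
  have h3 : Y ⊆ nn G Y v ∪ nn G Y w := by
    intro z hzc
    rw [Finset.mem_union, mem_nn, mem_nn]
    by_cases hzv : z = v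
    · subst hzv
      exact Or.inr ⟨hzc, hvw, fun h => hna h.symm⟩
    · by_cases ha : G.Adj v z
      · refine Or.inr ⟨hzc, ?_, ?_⟩
        · rintro rfl; exact hna ha
        · intro h; exact hz z ⟨ha, h.symm⟩
      · exact Or.inl ⟨hzc, hzv, ha⟩
  have h4 := Finset.card_le_card h3
  have h5 := Finset.card_union_le (nn G Y v) (nn G Y w)
  have h6 := hT.inn v hv
  have h7 := hT.inn w hw
  have h8 := hT.sz
  omega

theorem thcard {G : SimpleGraph V} {k x : ℕ} {hp : V → V} {c0 g : V → ℕ} {Y : Finset V}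
    (hH : HD G k hp c0 g) (hT : Tight G x Y) : (Y.filter (fun v => hp v ≠ v)).card ≤ 2 := by
  by_cases hne : (Y.filter (fun v => hp v ≠ v)).Nonempty
  · obtain ⟨v, hv⟩ := hne
    rw [Finset.mem_filter] at hv
    have : Y.filter (fun v => hp v ≠ v) ⊆ {v, hp v} := by
      intro w hw
      rw [Finset.mem_filter] at hw
      rw [Finset.mem_insert, Finset.mem_singleton]
      by_cases hvw : w = v
      · exact Or.inl hvw
      · exact Or.inr (tpair hH hT hv.1 hw.1 hv.2 hw.2 (Ne.symm hvw))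
    exact (Finset.card_le_card this).trans Finset.card_le_two
  · rw [Finset.not_nonempty_iff_eq_empty] at hne
    rw [hne]; simp

/-- the vertex colours of a tight spot -/
theorem tvert (hNE : Stmt_NE.{u}) (G : SimpleGraph V) (d x : ℕ) (Y : Finset V) (hp : V → V)
    (c0 g : V → ℕ) (hx1 : 1 ≤ x) (hxd : 100000 * x ≤ d) (hdeg : ∀ v, (nb G v).card ≤ d)
    (hH : HD G (d + 2) hp c0 g) (hT : Tight G x Y) (Z : V → Finset ℕ) (m a : ℕ)
    (hZ : ∑ v ∈ Y, (Z v).card ≤ m) (hm : 250 * m ≤ Y.card) :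
    ∃ (cls : V → V) (s : V → ℕ), (∃ p, p ≤ x ∧ helper54.PS G hp Y p cls) ∧
      (∀ v ∈ Y, hp v = v → s v < d + 2 ∧ s v ≠ a ∧ s v ∉ Z v ∧
        ∀ u ∈ Y, hp u ≠ u → s v ≠ c0 u) ∧
      (∀ v ∈ Y, hp v = v → ∀ w ∈ Y, hp w = w → s v = s w → cls v = cls w) := by
  have hYc : Y.card ≤ d + 1 + x := by
    have hpos : 0 < Y.card := by have := hT.sz; omega
    obtain ⟨v, hv⟩ := Finset.card_pos.mp hpos
    have h1 := card_split G Y v hv
    have h2 := deg_split' G Y v
    have h3 := hdeg v
    have h4 := hT.inn v hv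
    omega
  obtain ⟨p, hp1, hp2, cls, hcls⟩ : ∃ p, p ≤ x ∧ Y.card ≤ d + 1 + p ∧
      ∃ cls : V → V, helper54.PS G hp Y p cls := by
    by_cases hsm : Y.card ≤ d + 1
    · exact ⟨0, Nat.zero_le _, by omega, _, helper54.ps_zero G hp Y⟩
    · have hnn : ∀ v ∈ Y, Y.card - (d + 1) ≤ (nn G Y v).card := by
        intro v hv
        have h1 := card_split G Y v hv
        have h2 := deg_split' G Y v
        have h3 := hdeg v
        omega
      have hpx : Y.card - (d + 1) ≤ x := by omega
      obtain ⟨cls, hcls⟩ := helper54.pairs (G := G) (hp := hp) (C := Y) (S := Y)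
        (M := Y.card - (d + 1)) (x := x) (p := Y.card - (d + 1)) (subset_refl _) hT.inn hnn
        (by omega) (thcard hH hT) (by omega) (by omega) (by omega)
      exact ⟨Y.card - (d + 1), hpx, by omega, cls, hcls⟩
  set Hc : Finset ℕ := (Y.filter (fun v => hp v ≠ v)).image c0 with hHc
  set P : Finset ℕ := range (d + 2) \ insert a Hc with hP
  set S : Finset V := (Y.filter (fun v => hp v = v)).image cls with hS
  let Zs : V → Finset ℕ := fun s => (Y.filter (fun v => cls v = s)).biUnion Z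
  have hPc : d + 1 ≤ P.card + (Y.filter (fun v => hp v ≠ v)).card := by
    have h1 : (insert a Hc).card ≤ 1 + (Y.filter (fun v => hp v ≠ v)).card := by
      have h2 := Finset.card_insert_le a Hc
      have h3 : Hc.card ≤ (Y.filter (fun v => hp v ≠ v)).card := Finset.card_image_le
      omega
    have h4 := Finset.le_card_sdiff (insert a Hc) (range (d + 2))
    rw [Finset.card_range] at h4
    rw [← hP] at h4
    omega
  have hH2 := thcard hH hT
  have hSc : S.card + (Y.filter (fun v => hp v ≠ v)).card + p ≤ Y.card := by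
    have h1 : S ⊆ (Y.filter (fun v => hp v = v)).filter (fun v => cls v = v) := by
      intro s hs
      rw [hS, Finset.mem_image] at hs
      obtain ⟨v, hv, rfl⟩ := hs
      rw [Finset.mem_filter] at hv
      have h2 := hcls.cmem v hv.1
      rw [Finset.mem_filter, Finset.mem_filter]
      refine ⟨⟨h2.1, ?_⟩, h2.2⟩
      by_cases h3 : v = cls v
      · rw [← h3]; exact hv.2
      · exact (hcls.cind v hv.1 (cls v) h2.1 h3 h2.2.symm).2.2
    have h2 := Finset.card_le_card h1
    have h3 := Finset.card_filter_add_card_filter_not (s := Y.filter (fun v => hp v = v))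
      (fun v => cls v = v)
    have h4 : ((Y.filter (fun v => hp v = v)).filter (fun v => ¬ cls v = v)).card = p := by
      rw [← hcls.num]
      congr 1
      ext v
      simp only [Finset.mem_filter, ne_eq]
      constructor
      · rintro ⟨⟨h5, _⟩, h6⟩; exact ⟨h5, h6⟩
      · rintro ⟨h5, h6⟩
        exact ⟨⟨h5, (hcls.cind v h5 (cls v) (hcls.cmem v h5).1 (fun h => h6 h.symm)
          (hcls.cmem v h5).2.symm).2.1⟩, h6⟩
    have h5 := Finset.card_filter_add_card_filter_not (s := Y) (fun v => hp v = v)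
    simp only [ne_eq] at *
    omega
  have hmY : 250 * m ≤ Y.card := hm
  obtain ⟨σ, hσ1, hσ2⟩ := hNE S P Zs m (by omega)
    (by
      intro s _
      refine le_trans Finset.card_biUnion_le (le_trans ?_ hZ)
      exact Finset.sum_le_sum_of_subset (Finset.filter_subset _ _))
    (by
      intro α _
      have h1 : S.filter (fun s => α ∈ Zs s) ⊆ (Y.filter (fun v => (Z v).Nonempty)).image cls := by
        intro s hs
        rw [Finset.mem_filter] at hs
        have h2 := hs.2
        simp only [Zs, Finset.mem_biUnion, Finset.mem_filter] at h2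
        obtain ⟨v, ⟨hv, hvs⟩, hα⟩ := h2
        rw [Finset.mem_image]
        exact ⟨v, Finset.mem_filter.mpr ⟨hv, ⟨α, hα⟩⟩, hvs⟩
      have h2 := (Finset.card_le_card h1).trans Finset.card_image_le
      have h3 : (Y.filter (fun v => (Z v).Nonempty)).card ≤ ∑ v ∈ Y, (Z v).card := by
        rw [Finset.card_filter]
        apply Finset.sum_le_sum
        intro v _
        split_ifs with hv
        · exact Finset.card_pos.mpr hv
        · exact Nat.zero_le _
      omega)
  refine ⟨cls, fun v => σ (cls v), ⟨p, hp1, hcls⟩, ?_, ?_⟩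
  · intro v hv hpv
    have hs : cls v ∈ S := Finset.mem_image_of_mem cls (Finset.mem_filter.mpr ⟨hv, hpv⟩)
    obtain ⟨h1, h2⟩ := hσ2 (cls v) hs
    rw [hP, Finset.mem_sdiff, Finset.mem_range, Finset.mem_insert] at h1
    push Not at h1
    refine ⟨h1.1, h1.2.1, ?_, ?_⟩
    · intro h3
      apply h2
      simp only [Zs, Finset.mem_biUnion, Finset.mem_filter]
      exact ⟨v, ⟨hv, rfl⟩, h3⟩
    · intro u hu hpu h3
      apply h1.2.2
      have h3' : σ (cls v) = c0 u := h3
      rw [h3']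
      exact Finset.mem_image_of_mem c0 (Finset.mem_filter.mpr ⟨hu, hpu⟩)
  · intro v hv hpv w hw hpw h
    exact hσ1 (Finset.mem_image_of_mem cls (Finset.mem_filter.mpr ⟨hv, hpv⟩))
      (Finset.mem_image_of_mem cls (Finset.mem_filter.mpr ⟨hw, hpw⟩)) h


omit [Fintype V] in
theorem cutg_adj {G : SimpleGraph V} {hp : V → V} {Y : Finset V} {v w : V} :
    (cutg G hp Y).Adj v w ↔ G.Adj v w ∧ (v ∉ Y ∨ w ∉ Y ∨ hp v = w ∨ hp w = v) := Iff.rfl

/-- THEOREM TS: the inner edges of a tight spot can be added. -/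
theorem ts (hA : Stmt_SPA.{u}) (h0 : Stmt_SP0.{u}) (hNE : Stmt_NE.{u}) (G : SimpleGraph V)
    (d x : ℕ) (Y : Finset V) (hp : V → V) (c0 g c : V → ℕ) (t : V → V → ℕ)
    (hx1 : 1 ≤ x) (hxd : 100000 * x ≤ d) (hdeg : ∀ v, (nb G v).card ≤ d)
    (hH : HD G (d + 2) hp c0 g) (hT : Tight G x Y) (h : TC (cutg G hp Y) (d + 2) hp c0 g c t) :
    ∃ (c' : V → ℕ) (t' : V → V → ℕ), TC G (d + 2) hp c0 g c' t' := by
  have hYc : Y.card ≤ d + 1 + x := by
    have hpos : 0 < Y.card := by have := hT.sz; omega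
    obtain ⟨v, hv⟩ := Finset.card_pos.mp hpos
    have h1 := card_split G Y v hv
    have h2 := deg_split' G Y v
    have h3 := hdeg v
    have h4 := hT.inn v hv
    omega
  -- the outer neighbours
  let ob : V → Finset V := fun v => nb G v \ Y
  have hob : ∀ v w, w ∈ ob v ↔ G.Adj v w ∧ w ∉ Y := by
    intro v w
    simp only [ob, Finset.mem_sdiff, mem_nb]
  have hcut : ∀ v w, G.Adj v w → w ∉ Y → (cutg G hp Y).Adj v w := by
    intro v w h1 h2
    exact ⟨h1, Or.inr (Or.inl h2)⟩
  have hcut' : ∀ v w, G.Adj v w → v ∉ Y → (cutg G hp Y).Adj v w := by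
    intro v w h1 h2
    exact ⟨h1, Or.inl h2⟩
  let F0 : V → Finset ℕ := fun v => (ob v).image (t v)
  have hF0 : ∀ v b, b ∈ F0 v ↔ ∃ w, (G.Adj v w ∧ w ∉ Y) ∧ t v w = b := by
    intro v b
    simp only [F0, Finset.mem_image, hob]
  let Z : V → Finset ℕ := fun v => F0 v ∪ (ob v).image c
  set m0 : ℕ := ∑ v ∈ Y, (ob v).card with hm0
  have hbnd : 1000 * m0 ≤ Y.card := hT.bnd
  have hZ : ∑ v ∈ Y, (Z v).card ≤ 2 * m0 := by
    rw [hm0, Finset.mul_sum]
    apply Finset.sum_le_sum
    intro v _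
    have h1 := Finset.card_union_le (F0 v) ((ob v).image c)
    have h2 : (F0 v).card ≤ (ob v).card := Finset.card_image_le
    have h3 : ((ob v).image c).card ≤ (ob v).card := Finset.card_image_le
    show (F0 v ∪ (ob v).image c).card ≤ _
    omega
  -- the colour γ
  obtain ⟨γ, hγ1, hγ2⟩ : ∃ γ : ℕ, (∀ v ∈ Y, hp v ≠ v → g v = γ) ∧ γ < d + 2 := by
    by_cases hu : ∃ u, u ∈ Y ∧ hp u ≠ u
    · obtain ⟨u, hu1, hu2⟩ := hu
      refine ⟨g u, ?_, hH.glt u hu2⟩
      intro v hv1 hv2
      by_cases huv : u = v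
      · rw [huv]
      · have := tpair hH hT hu1 hv1 hu2 hv2 huv
        rw [this, hH.gs]
    · refine ⟨0, ?_, by omega⟩
      intro v hv1 hv2
      exact absurd ⟨v, hv1, hv2⟩ hu
  -- the colour a
  obtain ⟨a, ha1, ha2⟩ : ∃ a ∈ range (d + 2),
      a ∉ insert γ (Y.biUnion F0 ∪ (Y.filter (fun v => hp v ≠ v)).image c0) := by
    by_contra hcon
    push Not at hcon
    have h6 : range (d + 2) ⊆ insert γ (Y.biUnion F0 ∪ (Y.filter (fun v => hp v ≠ v)).image c0) :=
      hcon
    have h7 := Finset.card_le_card h6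
    have h8 := Finset.card_insert_le γ
      (Y.biUnion F0 ∪ (Y.filter (fun v => hp v ≠ v)).image c0)
    have h9 := Finset.card_union_le (Y.biUnion F0) ((Y.filter (fun v => hp v ≠ v)).image c0)
    have h10 : ((Y.filter (fun v => hp v ≠ v)).image c0).card ≤ _ := Finset.card_image_le
    have h11 := thcard hH hT
    have h12 : (Y.biUnion F0).card ≤ m0 := by
      refine Finset.card_biUnion_le.trans ?_
      exact Finset.sum_le_sum (fun v _ => Finset.card_image_le)
    rw [Finset.card_range] at h7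
    omega
  rw [Finset.mem_range] at ha1
  rw [Finset.mem_insert, Finset.mem_union, Finset.mem_biUnion, Finset.mem_image] at ha2
  push Not at ha2
  obtain ⟨haγ, haF, hah⟩ := ha2
  obtain ⟨cls, s, ⟨p, hpx, hcls⟩, hs1, hs2⟩ := tvert hNE G d x Y hp c0 g hx1 hxd hdeg hH hT Z
    (2 * m0) a hZ (by omega)
  -- the new vertex colouring
  let c' : V → ℕ := fun v => if v ∈ Y then (if hp v = v then s v else c0 v) else c v
  have hc'out : ∀ v, v ∉ Y → c' v = c v := by
    intro v hv
    simp only [c']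
    rw [if_neg hv]
  have hc'in : ∀ v, v ∈ Y → hp v = v → c' v = s v := by
    intro v hv hv2
    simp only [c']
    rw [if_pos hv, if_pos hv2]
  have hc'h : ∀ v, hp v ≠ v → c' v = c0 v := by
    intro v hv
    by_cases hvY : v ∈ Y
    · simp only [c']
      rw [if_pos hvY, if_neg hv]
    · rw [hc'out v hvY]
      exact h.hc v hv
  have hc'h2 : ∀ v, hp v ≠ v → c' v = c v := by
    intro v hv
    rw [hc'h v hv, h.hc v hv]
  have hc'lt : ∀ v, c' v < d + 2 := by
    intro v
    by_cases hv : v ∈ Y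
    · by_cases hv2 : hp v = v
      · rw [hc'in v hv hv2]
        exact (hs1 v hv hv2).1
      · rw [hc'h2 v hv2]
        exact h.clt v
    · rw [hc'out v hv]
      exact h.clt v
  have hc'Z : ∀ v ∈ Y, c' v ∉ F0 v := by
    intro v hv hb
    by_cases hv2 : hp v = v
    · rw [hc'in v hv hv2] at hb
      exact (hs1 v hv hv2).2.2.1 (Finset.mem_union_left _ hb)
    · rw [hF0] at hb
      obtain ⟨w, ⟨hw1, hw2⟩, hw3⟩ := hb
      rw [hc'h2 v hv2] at hw3
      exact h.tc v w (hcut v w hw1 hw2) hw3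
  -- equal colours inside the spot
  have hceq : ∀ v ∈ Y, ∀ w ∈ Y, v ≠ w → c' v = c' w →
      hp v = v ∧ hp w = w ∧ cls v = cls w ∧ ¬ G.Adj v w := by
    intro v hv w hw hvw hcc
    by_cases hv2 : hp v = v
    · by_cases hw2 : hp w = w
      · rw [hc'in v hv hv2, hc'in w hw hw2] at hcc
        have h1 := hs2 v hv hv2 w hw hw2 hcc
        exact ⟨hv2, hw2, h1, (hcls.cind v hv w hw hvw h1).1⟩
      · rw [hc'in v hv hv2, hc'h w hw2] at hcc
        exact absurd hcc ((hs1 v hv hv2).2.2.2 w hw hw2)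
    · by_cases hw2 : hp w = w
      · rw [hc'h v hv2, hc'in w hw hw2] at hcc
        exact absurd hcc.symm ((hs1 w hw hw2).2.2.2 v hv hv2)
      · rw [hc'h v hv2, hc'h w hw2, tpair hH hT hv hw hv2 hw2 hvw] at hcc
        exact absurd hcc (hH.cc v hv2)
  have hc'adj : ∀ v w, G.Adj v w → c' v ≠ c' w := by
    have hio : ∀ v w, G.Adj v w → v ∈ Y → w ∉ Y → c' v ≠ c' w := by
      intro v w hvw hv hw hcc
      rw [hc'out w hw] at hcc
      by_cases hv2 : hp v = v
      · rw [hc'in v hv hv2] at hcc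
        apply (hs1 v hv hv2).2.2.1
        apply Finset.mem_union_right
        rw [Finset.mem_image]
        exact ⟨w, (hob v w).mpr ⟨hvw, hw⟩, hcc.symm⟩
      · rw [hc'h2 v hv2] at hcc
        exact h.cadj v w (hcut v w hvw hw) hcc
    intro v w hvw hcc
    by_cases hv : v ∈ Y
    · by_cases hw : w ∈ Y
      · exact (hceq v hv w hw hvw.ne hcc).2.2.2 hvw
      · exact hio v w hvw hv hw hcc
    · by_cases hw : w ∈ Y
      · exact hio w v hvw.symm hw hv hcc.symm
      · rw [hc'out v hv, hc'out w hw] at hcc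
        exact h.cadj v w (hcut v w hvw hw) hcc
  -- the spot as a graph
  let C := {v : V // v ∈ Y}
  let Gi : SimpleGraph C := G.comap (fun v => v.1)
  let hm : C → C := fun v => if h : hp v.1 ∈ Y then ⟨hp v.1, h⟩ else v
  let F : C → Finset ℕ := fun v => F0 v.1
  have hmv : ∀ v : C, hm v ≠ v → hp v.1 ∈ Y ∧ hp v.1 ≠ v.1 ∧ (hm v).1 = hp v.1 := by
    intro v h
    by_cases h1 : hp v.1 ∈ Y
    · have h2 : hm v = ⟨hp v.1, h1⟩ := by simp only [hm]; rw [dif_pos h1]
      refine ⟨h1, ?_, by rw [h2]⟩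
      intro h3
      apply h
      rw [h2]
      exact Subtype.ext h3
    · exfalso
      apply h
      simp only [hm]
      rw [dif_neg h1]
  have hmv2 : ∀ v : C, hp v.1 ∈ Y → (hm v).1 = hp v.1 := by
    intro v h1
    simp only [hm]; rw [dif_pos h1]
  have hCc : Fintype.card C = Y.card := Fintype.card_coe Y
  have hloc : TLoc Gi d x (fun v => c' v.1) F hm γ a := by
    refine ⟨hx1, hxd, ?_, ?_, ?_, ?_, ?_, ?_, ?_, ?_, ?_, hγ2, ha1, ?_, haγ, ?_, ?_, ?_, ?_⟩
    · -- deg
      intro v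
      have h1 := deg_split' G Y v.1
      have h2 := hdeg v.1
      have h3 : (F v).card ≤ (nb G v.1 \ Y).card := Finset.card_image_le
      have h4 : (nb Gi v).card ≤ (nb G v.1 ∩ Y).card := by
        refine Finset.card_le_card_of_injOn (fun w => w.1) ?_ ?_
        · intro w hw
          have hw' : w ∈ nb Gi v := hw
          rw [mem_nb] at hw'
          rw [Finset.mem_coe, Finset.mem_inter, mem_nb]
          exact ⟨hw', w.2⟩
        · intro w _ w' _ h
          exact Subtype.ext h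
      omega
    · -- inn
      intro v
      refine le_trans ?_ (hT.inn v.1 v.2)
      refine Finset.card_le_card_of_injOn (fun w => w.1) ?_ ?_
      · intro w hw
        have hw' : w ∈ nn Gi univ v := hw
        rw [mem_nn] at hw'
        rw [Finset.mem_coe, mem_nn]
        exact ⟨w.2, fun h => hw'.2.1 (Subtype.ext h), hw'.2.2⟩
      · intro w _ w' _ h
        exact Subtype.ext h
    · -- bnd
      rw [hCc]
      refine le_trans ?_ hbnd
      apply Nat.mul_le_mul_left
      rw [hm0, ← Finset.sum_coe_sort Y]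
      exact Finset.sum_le_sum (fun v _ => Finset.card_image_le)
    · intro v; exact hc'lt v.1
    · -- Flt
      intro v b hb
      have hb' : b ∈ F0 v.1 := hb
      rw [hF0] at hb'
      obtain ⟨w, ⟨hw1, hw2⟩, rfl⟩ := hb'
      exact h.tlt v.1 w (hcut v.1 w hw1 hw2)
    · intro v
      exact hc'Z v.1 v.2
    · intro v w hvw
      exact hc'adj v.1 w.1 hvw
    · -- ctwo
      intro b
      by_cases hne : ∃ v : C, c' v.1 = b
      · obtain ⟨v, hv⟩ := hne
        by_cases hone : ∀ w : C, c' w.1 = b → w = v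
        · have h1 : univ.filter (fun w : C => c' w.1 = b) ⊆ {v} := by
            intro w hw
            rw [Finset.mem_filter] at hw
            rw [Finset.mem_singleton]
            exact hone w hw.2
          exact (Finset.card_le_card h1).trans (by simp)
        · push Not at hone
          obtain ⟨w0, hw0, hw0v⟩ := hone
          have hv2 := (hceq v.1 v.2 w0.1 w0.2 (fun h => hw0v (Subtype.ext h).symm)
            (hv.trans hw0.symm)).1
          refine le_trans ?_ (hcls.ctwo v.1 v.2)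
          refine Finset.card_le_card_of_injOn (fun w => w.1) ?_ ?_
          · intro w hw
            rw [Finset.mem_coe, Finset.mem_filter] at hw
            rw [Finset.mem_coe, Finset.mem_filter]
            refine ⟨w.2, ?_⟩
            by_cases hwv : w.1 = v.1
            · show cls w.1 = cls v.1
              rw [hwv]
            · exact (hceq w.1 w.2 v.1 v.2 hwv (hw.2.trans hv.symm)).2.2.1
          · intro w _ w' _ h
            exact Subtype.ext h
      · have h1 : univ.filter (fun w : C => c' w.1 = b) = ∅ := by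
          rw [Finset.filter_eq_empty_iff]
          intro w _ hw
          exact hne ⟨w, hw⟩
        rw [h1]
        simp
    · -- rep
      refine ⟨(Y.filter (fun v => cls v ≠ v)).image c', ?_, ?_, ?_, ?_⟩
      · refine Finset.card_image_le.trans ?_
        rw [hcls.num]
        exact hpx
      · intro v w hvw hcc
        have hvw' : v.1 ≠ w.1 := fun h => hvw (Subtype.ext h)
        obtain ⟨_, _, h3, _⟩ := hceq v.1 v.2 w.1 w.2 hvw' hcc
        rw [Finset.mem_image]
        by_cases h4 : cls v.1 = v.1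
        · refine ⟨w.1, Finset.mem_filter.mpr ⟨w.2, ?_⟩, hcc.symm⟩
          rw [← h3, h4]
          exact hvw'
        · exact ⟨v.1, Finset.mem_filter.mpr ⟨v.2, h4⟩, rfl⟩
      · intro hh
        rw [Finset.mem_image] at hh
        obtain ⟨v, hv, hva⟩ := hh
        rw [Finset.mem_filter] at hv
        have h2 := hcls.cmem v hv.1
        have h3 := hcls.cind v hv.1 (cls v) h2.1 (fun h => hv.2 h.symm) h2.2.symm
        rw [hc'in v hv.1 h3.2.1] at hva
        exact (hs1 v hv.1 h3.2.1).2.1 hva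
      · intro b hb
        rw [Finset.mem_image] at hb
        obtain ⟨v, _, rfl⟩ := hb
        exact hc'lt v
    · -- aF
      intro v
      exact haF v.1 v.2
    · -- ac
      intro v hva
      have hva' : c' v.1 = a := hva
      by_cases hv2 : hp v.1 = v.1
      · rw [hc'in v.1 v.2 hv2] at hva'
        exact (hs1 v.1 v.2 hv2).2.1 hva'
      · rw [hc'h v.1 hv2] at hva'
        exact hah v.1 (Finset.mem_filter.mpr ⟨v.2, hv2⟩) hva'
    · -- hinv
      intro v
      by_cases h1 : hp v.1 ∈ Y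
      · have h2 := hmv2 v h1
        apply Subtype.ext
        rw [hmv2 (hm v) (by rw [h2, hH.inv]; exact v.2), h2, hH.inv]
      · have h2 : hm v = v := by simp only [hm]; rw [dif_neg h1]
        rw [h2, h2]
    · -- hadj
      intro v hv
      obtain ⟨h1, h2, h3⟩ := hmv v hv
      have h4 := hγ1 v.1 v.2 h2
      refine ⟨?_, ?_, ?_⟩
      · show G.Adj v.1 (hm v).1
        rw [h3]
        exact hH.adj v.1 h2
      · show γ ≠ c' v.1
        rw [← h4, hc'h v.1 h2]
        exact (hH.cg v.1 h2).symm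
      · intro hb
        have hb' : γ ∈ F0 v.1 := hb
        rw [hF0] at hb'
        obtain ⟨w, ⟨hw1, hw2⟩, hw3⟩ := hb'
        have e1 : (cutg G hp Y).Adj v.1 (hp v.1) :=
          ⟨hH.adj v.1 h2, Or.inr (Or.inr (Or.inl rfl))⟩
        have e2 := h.ht v.1 h2
        have e3 : w = hp v.1 := by
          apply h.inj v.1
          · rw [Finset.mem_coe, mem_nb]
            exact hcut v.1 w hw1 hw2
          · rw [Finset.mem_coe, mem_nb]
            exact e1
          · rw [hw3, e2, h4]
        rw [e3] at hw2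
        exact hw2 h1
    · -- hcard
      refine le_trans ?_ (thcard hH hT)
      refine Finset.card_le_card_of_injOn (fun w => w.1) ?_ ?_
      · intro w hw
        have hw2 : hm w ≠ w := by
          simp only [Finset.coe_filter, Set.mem_ofPred_eq] at hw
          exact hw.2
        rw [Finset.mem_coe, Finset.mem_filter]
        exact ⟨w.2, (hmv w hw2).2.1⟩
      · intro w _ w' _ h
        exact Subtype.ext h
  obtain ⟨r, hr⟩ := tloc hA h0 Gi d x (fun v => c' v.1) F hm γ a hloc
  let t' : V → V → ℕ := fun v w =>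
    if h : v ∈ Y ∧ w ∈ Y then r ⟨v, h.1⟩ ⟨w, h.2⟩ else t v w
  have ht1 : ∀ v w (h1 : v ∈ Y) (h2 : w ∈ Y), t' v w = r ⟨v, h1⟩ ⟨w, h2⟩ := by
    intro v w h1 h2
    simp only [t']
    rw [dif_pos ⟨h1, h2⟩]
  have ht2 : ∀ v w, ¬ (v ∈ Y ∧ w ∈ Y) → t' v w = t v w := by
    intro v w h1
    simp only [t']
    rw [dif_neg h1]
  have hcadj2 : ∀ v w, G.Adj v w → ¬ (v ∈ Y ∧ w ∈ Y) → (cutg G hp Y).Adj v w := by
    intro v w h1 h2
    exact ⟨h1, by tauto⟩
  have htF : ∀ v ∈ Y, ∀ w ∉ Y, G.Adj v w → t v w ∈ F0 v := by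
    intro v _ w hw hvw
    rw [hF0]
    exact ⟨w, ⟨hvw, hw⟩, rfl⟩
  refine ⟨c', t', ⟨hc'lt, hc'adj, ?_, ?_, ?_, ?_, fun v hv => hc'h v hv, ?_⟩⟩
  · -- sym
    intro v w
    by_cases h1 : v ∈ Y ∧ w ∈ Y
    · rw [ht1 v w h1.1 h1.2, ht1 w v h1.2 h1.1]
      exact hr.sym _ _
    · rw [ht2 v w h1, ht2 w v (fun h2 => h1 ⟨h2.2, h2.1⟩)]
      exact h.sym v w
  · -- tlt
    intro v w hvw
    by_cases h1 : v ∈ Y ∧ w ∈ Y
    · rw [ht1 v w h1.1 h1.2]
      exact hr.lt _ _ hvw
    · rw [ht2 v w h1]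
      exact h.tlt v w (hcadj2 v w hvw h1)
  · -- tc
    intro v w hvw
    by_cases h1 : v ∈ Y ∧ w ∈ Y
    · rw [ht1 v w h1.1 h1.2]
      exact hr.tc ⟨v, h1.1⟩ ⟨w, h1.2⟩ hvw
    · rw [ht2 v w h1]
      by_cases hv : v ∈ Y
      · have hw : w ∉ Y := fun hw => h1 ⟨hv, hw⟩
        intro hh
        apply hc'Z v hv
        rw [← hh]
        exact htF v hv w hw hvw
      · rw [hc'out v hv]
        exact h.tc v w (hcadj2 v w hvw h1)
  · -- inj
    intro v w hw w' hw' hww
    rw [Finset.mem_coe, mem_nb] at hw hw'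
    by_cases hv : v ∈ Y
    · by_cases h1 : w ∈ Y
      · by_cases h2 : w' ∈ Y
        · rw [ht1 v w hv h1, ht1 v w' hv h2] at hww
          have m1 : (⟨w, h1⟩ : C) ∈ (nb Gi ⟨v, hv⟩ : Set C) := by
            rw [Finset.mem_coe, mem_nb]; exact hw
          have m2 : (⟨w', h2⟩ : C) ∈ (nb Gi ⟨v, hv⟩ : Set C) := by
            rw [Finset.mem_coe, mem_nb]; exact hw'
          exact congrArg Subtype.val (hr.inj ⟨v, hv⟩ m1 m2 hww)
        · exfalso
          rw [ht1 v w hv h1, ht2 v w' (fun h3 => h2 h3.2)] at hww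
          apply hr.tF ⟨v, hv⟩ ⟨w, h1⟩ hw
          rw [hww]
          exact htF v hv w' h2 hw'
      · by_cases h2 : w' ∈ Y
        · exfalso
          rw [ht1 v w' hv h2, ht2 v w (fun h3 => h1 h3.2)] at hww
          apply hr.tF ⟨v, hv⟩ ⟨w', h2⟩ hw'
          rw [← hww]
          exact htF v hv w h1 hw
        · rw [ht2 v w (fun h3 => h1 h3.2), ht2 v w' (fun h3 => h2 h3.2)] at hww
          apply h.inj v _ _ hww
          · rw [Finset.mem_coe, mem_nb]
            exact hcut v w hw h1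
          · rw [Finset.mem_coe, mem_nb]
            exact hcut v w' hw' h2
    · rw [ht2 v w (fun h3 => hv h3.1), ht2 v w' (fun h3 => hv h3.1)] at hww
      apply h.inj v _ _ hww
      · rw [Finset.mem_coe, mem_nb]
        exact hcut' v w hw hv
      · rw [Finset.mem_coe, mem_nb]
        exact hcut' v w' hw' hv
  · -- ht
    intro v hv
    by_cases h1 : v ∈ Y ∧ hp v ∈ Y
    · have h4 : hm ⟨v, h1.1⟩ ≠ ⟨v, h1.1⟩ := by
        intro h5
        apply hv
        have := congrArg Subtype.val h5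
        rwa [hmv2 ⟨v, h1.1⟩ h1.2] at this
      have h5 := hr.th ⟨v, h1.1⟩ h4
      rw [ht1 v (hp v) h1.1 h1.2, hγ1 v h1.1 hv, ← h5]
      congr 1
      exact (Subtype.ext (hmv2 ⟨v, h1.1⟩ h1.2)).symm
    · rw [ht2 v (hp v) h1]
      exact h.ht v hv

/-- `G` without the edges inside the members of `𝒴` which are not in `H` -/
def cutF (G : SimpleGraph V) (hp : V → V) (𝒴 : Finset (Finset V)) : SimpleGraph V where
  Adj v w := G.Adj v w ∧ ∀ Y ∈ 𝒴, v ∉ Y ∨ w ∉ Y ∨ hp v = w ∨ hp w = v
  symm := ⟨fun v w h => ⟨h.1.symm, fun Y hY => by have := h.2 Y hY; tauto⟩⟩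
  loopless := ⟨fun v h => G.loopless.irrefl v h.1⟩

omit [Fintype V] in
theorem hd_sub {G G' : SimpleGraph V} {k : ℕ} {hp : V → V} {c0 g : V → ℕ}
    (hH : HD G k hp c0 g) (hle : G' ≤ G) (hadj : ∀ v, hp v ≠ v → G'.Adj v (hp v)) :
    HD G' k hp c0 g := by
  refine ⟨hH.inv, hadj, ?_, hH.clt, hH.glt, hH.cc, hH.cg, hH.gs⟩
  intro v w h1 h2 h3 h4
  obtain ⟨h5, h6⟩ := hH.far v w h1 h2 h3 h4
  exact ⟨fun h => h5 (hle h), fun z hz => h6 z ⟨hle hz.1, hle hz.2⟩⟩

/-- THEOREM TS for a disjoint family of tight spots. -/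
theorem tsF (hA : Stmt_SPA.{u}) (h0 : Stmt_SP0.{u}) (hNE : Stmt_NE.{u}) (G : SimpleGraph V)
    (d x : ℕ) (hp : V → V) (c0 g : V → ℕ)
    (hx1 : 1 ≤ x) (hxd : 100000 * x ≤ d) (hdeg : ∀ v, (nb G v).card ≤ d)
    (hH : HD G (d + 2) hp c0 g) (𝒴 : Finset (Finset V)) (hT : ∀ Y ∈ 𝒴, Tight G x Y)
    (hdis : ∀ Y ∈ 𝒴, ∀ Y' ∈ 𝒴, Y ≠ Y' → Disjoint Y Y')
    (h : ∃ (c : V → ℕ) (t : V → V → ℕ), TC (cutF G hp 𝒴) (d + 2) hp c0 g c t) :
    ∃ (c : V → ℕ) (t : V → V → ℕ), TC G (d + 2) hp c0 g c t := by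
  induction 𝒴 using Finset.induction_on with
  | empty =>
    have h1 : cutF G hp ∅ = G := by
      ext v w
      show G.Adj v w ∧ (∀ Y ∈ (∅ : Finset (Finset V)), _) ↔ _
      simp
    rwa [h1] at h
  | insert Y 𝒴 hY ih =>
    apply ih (fun Y' hY' => hT Y' (Finset.mem_insert_of_mem hY'))
      (fun Y' hY' Y'' hY'' => hdis Y' (Finset.mem_insert_of_mem hY') Y''
        (Finset.mem_insert_of_mem hY''))
    obtain ⟨c, t, h⟩ := h
    set G' := cutF G hp 𝒴 with hG'
    have hle : G' ≤ G := fun v w hvw => hvw.1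
    have hcut : cutg G' hp Y = cutF G hp (insert Y 𝒴) := by
      ext v w
      show (G.Adj v w ∧ ∀ Y ∈ 𝒴, v ∉ Y ∨ w ∉ Y ∨ hp v = w ∨ hp w = v) ∧
        (v ∉ Y ∨ w ∉ Y ∨ hp v = w ∨ hp w = v) ↔
        G.Adj v w ∧ ∀ Y' ∈ insert Y 𝒴, v ∉ Y' ∨ w ∉ Y' ∨ hp v = w ∨ hp w = v
      rw [Finset.forall_mem_insert]
      tauto
    have hin : ∀ v ∈ Y, ∀ w ∈ Y, G'.Adj v w ↔ G.Adj v w := by
      intro v hv w hw
      refine ⟨fun hvw => hvw.1, fun hvw => ⟨hvw, ?_⟩⟩
      intro Y' hY'
      left
      intro hv'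
      have hne : Y ≠ Y' := by
        rintro rfl
        exact hY hY'
      exact Finset.disjoint_left.mp (hdis Y (Finset.mem_insert_self _ _) Y'
        (Finset.mem_insert_of_mem hY') hne) hv hv'
    have hHD : HD G' (d + 2) hp c0 g := by
      apply hd_sub hH hle
      intro v hv
      exact ⟨hH.adj v hv, fun Y' _ => Or.inr (Or.inr (Or.inl rfl))⟩
    have hTY := hT Y (Finset.mem_insert_self _ _)
    have hT' : Tight G' x Y := by
      refine ⟨?_, hTY.sz, ?_⟩
      · intro v hv
        have h1 : nn G' Y v = nn G Y v := by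
          ext w
          rw [mem_nn, mem_nn]
          constructor
          · rintro ⟨h1, h2, h3⟩
            exact ⟨h1, h2, fun h4 => h3 ((hin v hv w h1).mpr h4)⟩
          · rintro ⟨h1, h2, h3⟩
            exact ⟨h1, h2, fun h4 => h3 ((hin v hv w h1).mp h4)⟩
        rw [h1]
        exact hTY.inn v hv
      · refine le_trans ?_ hTY.bnd
        apply Nat.mul_le_mul_left
        apply Finset.sum_le_sum
        intro v _
        apply Finset.card_le_card
        apply Finset.sdiff_subset_sdiff _ (Finset.Subset.refl _)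
        intro w hw
        rw [mem_nb] at hw ⊢
        exact hle hw
    have hdeg' : ∀ v, (nb G' v).card ≤ d := by
      intro v
      refine le_trans (Finset.card_le_card ?_) (hdeg v)
      intro w hw
      rw [mem_nb] at hw ⊢
      exact hle hw
    rw [← hcut] at h
    exact ts hA h0 hNE G' d x Y hp c0 g c t hx1 hxd hdeg' hHD hT' h

end Pool.Agent.Work.MP_db9399_ts.helper46
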