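import Pool.Agent.Work.MP_db9399_ts_helper46.LCT
import Pool.Agent.Work.MP_db9399_lc.Final
import Pool.Agent.Work.MP_db9399_nc_helper46.Final

/-!
# MP_db9399, THEOREM LCT: assembly (helper46)
-/

set_option autoImplicit false

namespace Pool.Agent.Work.MP_db9399_ts.helper46

open Pool.Agent.Work.MP_db9399_nc

universe u

/-- THEOREM LC with tight spots. -/
theorem lct_holds : Stmt_LCT.{u} :=
  lct Pool.Agent.Work.MP_db9399_lc.nrm_holds Pool.Agent.Work.MP_db9399_lc.helper85.stmt_EMBB
    (MP_db9399_nc.helper46.stmt_SPA helper99.stmt_ABSA MP_db9399_nc_helper46.Final.spot)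
    (helper51.stmt_SP0 MP_db9399_nc_helper46.Final.clean) helper99.stmt_NE

end Pool.Agent.Work.MP_db9399_ts.helper46
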