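import Pool.Agent.Work.MP_db9399_ts_helper46.FINDH
import Pool.Agent.Work.MP_db9399_ts_helper46.TS
import Pool.Agent.Work.MP_db9399_nc_helper1.FIN

/-!
# MP_db9399, THEOREM LHT: THEOREM LCH with tight spots (helper46)
-/

set_option autoImplicit false

namespace Pool.Agent.Work.MP_db9399_ts.helper46

open Finset Classical
open Pool.Agent.Work.MP_db9399_all (nb)
open Pool.Agent.Work.MP_db9399_nc
open Pool.Agent.Work.MP_db9399_lh (Stmt_NRM)
open Pool.Agent.Work.MP_db9399_lc (Stmt_EMBB)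
open _root_.MP_db9399_co

universe u

/-- THE THEOREM: `𝒴` is a disjoint family of tight spots (vertex sets in which every vertex has at
most `Δ / 10⁵` nonneighbours and whose boundary has at most one edge per thousand vertices); the
conditions of THEOREM LCH are required only outside the tight spots. -/
def Stmt_LHT : Prop :=
  ∀ g : ℝ, 0 < g → ∃ d0 : ℕ, ∀ (V : Type u) [Fintype V] (G : SimpleGraph V)
    [DecidableRel G.Adj] (k : ℕ) (𝒴 : Finset (Finset V)), d0 ≤ G.maxDegree →
    G.maxDegree + 2 ≤ k →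
    (∀ Y ∈ 𝒴, ∀ Y' ∈ 𝒴, Y ≠ Y' → Disjoint Y Y') →
    (∀ Y ∈ 𝒴, ∀ v ∈ Y,
      100000 * (Y.filter (fun w => w ≠ v ∧ ¬ G.Adj v w)).card ≤ G.maxDegree) →
    (∀ Y ∈ 𝒴, 1000 * (G.interedges Y (univ \ Y)).card ≤ Y.card) →
    (∀ S T : Finset V, Disjoint S T →
      (∀ t ∈ T, (1 - g) * G.maxDegree ≤ (G.degree t : ℝ) ∧ ∀ Y ∈ 𝒴, t ∉ Y) →
      (S.card : ℝ) ≤ (1 + g) * T.card →
      g * G.maxDegree * T.card ≤ ((G.interedges T (univ \ S)).card : ℝ)) →
    (∀ C : Finset V,
      (∀ v ∈ C, (1 - g) * G.maxDegree ≤ (G.degree v : ℝ) ∧ ∀ Y ∈ 𝒴, v ∉ Y) →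
      (C.card : ℝ) ≤ (1 + g) * G.maxDegree →
      g * G.maxDegree * C.card ≤ ((G.interedges C (univ \ C)).card : ℝ)) →
    ∀ H : G.Subgraph, IsDistThreeMatching H → ∀ (c₀ : V → Fin k) (t₀ : Sym2 V → Fin k),
      IsTotalColoring H.spanningCoe c₀ t₀ →
      ∃ (c : V → Fin k) (t : Sym2 V → Fin k), IsTotalColoring G c t ∧
        (∀ v ∈ H.verts, c v = c₀ v) ∧ ∀ e ∈ H.edgeSet, t e = t₀ e

variable {V : Type u} [Fintype V]

theorem sum_sdiff_nat' (G : SimpleGraph V) [DecidableRel G.Adj] (A S : Finset V) :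
    (∑ a ∈ A, (nb G a \ S).card) = (G.interedges A (univ \ S)).card := by
  rw [SimpleGraph.interedges_def, card_filter, sum_product]
  refine sum_congr rfl fun a _ => ?_
  rw [← card_filter]
  congr 1
  ext w
  simp [mem_nb, and_comm]

/-- from a family of spots to a total colouring, abstract version -/
theorem lht (hN : Stmt_NRM.{u}) (hE : Stmt_EMBB.{u}) (hA : Stmt_SPA.{u}) (h0 : Stmt_SP0.{u})
    (hNE : Stmt_NE.{u}) : Stmt_LHT.{u} := by
  intro g hg
  set g1 : ℝ := min g (1 / 10) with hg1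
  have hg10 : 0 < g1 := lt_min hg (by norm_num)
  have hg11 : g1 ≤ 1 / 10 := min_le_right _ _
  have hg12 : g1 ≤ g := min_le_left _ _
  obtain ⟨d0, hF⟩ := FINDH.find_h hN hE g1 hg10
  refine ⟨max d0 100000, ?_⟩
  intro V _ G _ k 𝒴 hmax hk hdis hnn hbd hbip hnsc H hH c₀ t₀ hT
  set D : ℕ := G.maxDegree with hD
  have hD0 : d0 ≤ D := (le_max_left _ _).trans hmax
  have hD1 : 100000 ≤ D := (le_max_right _ _).trans hmax
  have hDr : (0 : ℝ) ≤ D := Nat.cast_nonneg D
  have hdeg : ∀ v, (nb G v).card ≤ D := by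
    intro v
    rw [FINDH.card_nb]
    exact G.degree_le_maxDegree v
  set x : ℕ := D / 100000 with hx
  have hx1 : 1 ≤ x := by omega
  have hxD : 100000 * x ≤ D := by omega
  -- the spots which are not small
  set 𝒵 : Finset (Finset V) := 𝒴.filter (fun Y => 2 * x + 3 ≤ Y.card) with h𝒵
  have hinn : ∀ Y ∈ 𝒴, ∀ v ∈ Y, (nn G Y v).card ≤ x := by
    intro Y hY v hv
    have h1 : 100000 * (nn G Y v).card ≤ D := by
      have h2 := hnn Y hY v hv
      unfold nn
      convert h2
    omega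
  have hbd' : ∀ Y ∈ 𝒴, 1000 * ∑ v ∈ Y, (nb G v \ Y).card ≤ Y.card := by
    intro Y hY
    rw [sum_sdiff_nat']
    exact hbd Y hY
  have hbd1 : ∀ Y ∈ 𝒴, ∀ v ∈ Y, 1000 * (nb G v \ Y).card ≤ Y.card := by
    intro Y hY v hv
    refine le_trans (Nat.mul_le_mul_left _ ?_) (hbd' Y hY)
    exact Finset.single_le_sum (f := fun v => (nb G v \ Y).card) (fun _ _ => Nat.zero_le _) hv
  have hcardY : ∀ Y ∈ 𝒴, Y.card ≤ D + 1 + x := by
    intro Y hY
    rcases Finset.eq_empty_or_nonempty Y with h | ⟨v, hv⟩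
    · rw [h]; simp
    · have h1 := card_split G Y v hv
      have h2 := deg_split' G Y v
      have h3 := hdeg v
      have h4 := hinn Y hY v hv
      omega
  have hTi : ∀ Y ∈ 𝒵, Tight G x Y := by
    intro Y hY
    rw [h𝒵, Finset.mem_filter] at hY
    exact ⟨hinn Y hY.1, hY.2, hbd' Y hY.1⟩
  have hdis' : ∀ Y ∈ 𝒵, ∀ Y' ∈ 𝒵, Y ≠ Y' → Disjoint Y Y' := by
    intro Y hY Y' hY'
    rw [h𝒵, Finset.mem_filter] at hY hY'
    exact hdis Y hY.1 Y' hY'.1
  -- the precolouring
  obtain ⟨hp, hHD, hverts, hadjH⟩ := helper1.hd_of hH hT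
  obtain ⟨d, hdk⟩ : ∃ d, k = d + 2 := ⟨k - 2, by omega⟩
  have hDd : D ≤ d := by omega
  -- the cut graph
  set G' := cutF G hp 𝒵 with hG'
  have hle : G' ≤ G := fun v w hvw => hvw.1
  have hsub : ∀ v, nb G' v ⊆ nb G v := by
    intro v w hw
    rw [mem_nb] at hw ⊢
    exact hle hw
  have hdeg' : ∀ v, (nb G' v).card ≤ D := fun v => (Finset.card_le_card (hsub v)).trans (hdeg v)
  -- vertices of large degree are outside the spots
  have hbig : ∀ v, (1 - g1) * D ≤ ((nb G' v).card : ℝ) →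
      ((1 - g) * D ≤ (G.degree v : ℝ) ∧ ∀ Y ∈ 𝒴, v ∉ Y) ∧ nb G' v = nb G v := by
    intro v hv
    have h1 : ∀ Y ∈ 𝒴, v ∉ Y := by
      intro Y hY hvY
      have h2 : (9 : ℝ) / 10 * D ≤ ((nb G' v).card : ℝ) := by
        refine le_trans ?_ hv
        apply mul_le_mul_of_nonneg_right _ hDr
        linarith
      have h3 : 9 * D ≤ 10 * (nb G' v).card := by
        have : (9 : ℝ) * D ≤ 10 * ((nb G' v).card : ℝ) := by linarith
        exact_mod_cast this
      have h4 := hcardY Y hY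
      have h5 := hbd1 Y hY v hvY
      by_cases hs : 2 * x + 3 ≤ Y.card
      · have hYZ : Y ∈ 𝒵 := by rw [h𝒵, Finset.mem_filter]; exact ⟨hY, hs⟩
        have h6 : nb G' v ⊆ insert (hp v) (nb G v \ Y) := by
          intro w hw
          rw [Finset.mem_insert, Finset.mem_sdiff]
          rw [mem_nb] at hw
          by_cases hwY : w ∈ Y
          · left
            rcases hw.2 Y hYZ with h7 | h7 | h7 | h7
            · exact absurd hvY h7
            · exact absurd hwY h7
            · exact h7.symm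
            · rw [← h7, hHD.inv]
          · right
            exact ⟨mem_nb.mpr hw.1, hwY⟩
        have h7 := (Finset.card_le_card h6).trans (Finset.card_insert_le _ _)
        omega
      · have h6 := deg_split' G Y v
        have h7 := card_split G Y v hvY
        have h8 := Finset.card_le_card (hsub v)
        omega
    have h2 : nb G' v = nb G v := by
      apply Finset.Subset.antisymm (hsub v)
      intro w hw
      rw [mem_nb] at hw ⊢
      refine ⟨hw, fun Y hY => Or.inl ?_⟩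
      rw [h𝒵, Finset.mem_filter] at hY
      exact h1 Y hY.1
    refine ⟨⟨?_, h1⟩, h2⟩
    rw [h2, FINDH.card_nb] at hv
    refine le_trans ?_ hv
    apply mul_le_mul_of_nonneg_right _ hDr
    linarith
  have hcardV : D ≤ Fintype.card V := by
    rcases isEmpty_or_nonempty V with hV | hV
    · rw [hD, SimpleGraph.maxDegree_of_subsingleton]
      exact Nat.zero_le _
    · exact (SimpleGraph.maxDegree_lt_card_verts G).le
  have hbip' : ∀ S T : Finset V, Disjoint S T →
      (∀ t ∈ T, (1 - g1) * D ≤ ((nb G' t).card : ℝ)) → (S.card : ℝ) ≤ (1 + g1) * T.card →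
      g1 * D * T.card ≤ ∑ t ∈ T, ((nb G' t \ S).card : ℝ) := by
    intro S T hST hT hc
    have hT0 : (0 : ℝ) ≤ T.card := Nat.cast_nonneg _
    have e1 : ∑ t ∈ T, ((nb G' t \ S).card : ℝ) = ∑ t ∈ T, ((nb G t \ S).card : ℝ) := by
      apply Finset.sum_congr rfl
      intro t ht
      rw [(hbig t (hT t ht)).2]
    rw [e1, FINDH.sum_nb_sdiff]
    refine le_trans ?_ (hbip S T hST (fun t ht => (hbig t (hT t ht)).1) ?_)
    · apply mul_le_mul_of_nonneg_right _ hT0
      exact mul_le_mul_of_nonneg_right hg12 hDr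
    · exact hc.trans (mul_le_mul_of_nonneg_right (by linarith) hT0)
  have hnsc' : ∀ C : Finset V, (∀ v ∈ C, (1 - g1) * D ≤ ((nb G' v).card : ℝ)) →
      (C.card : ℝ) ≤ (1 + g1) * D → g1 * D * C.card ≤ ∑ v ∈ C, ((nb G' v \ C).card : ℝ) := by
    intro C hC hc
    have hT0 : (0 : ℝ) ≤ C.card := Nat.cast_nonneg _
    have e1 : ∑ t ∈ C, ((nb G' t \ C).card : ℝ) = ∑ t ∈ C, ((nb G t \ C).card : ℝ) := by
      apply Finset.sum_congr rfl
      intro t ht
      rw [(hbig t (hC t ht)).2]
    rw [e1, FINDH.sum_nb_sdiff]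
    refine le_trans ?_ (hnsc C (fun t ht => (hbig t (hC t ht)).1) ?_)
    · apply mul_le_mul_of_nonneg_right _ hT0
      exact mul_le_mul_of_nonneg_right hg12 hDr
    · exact hc.trans (mul_le_mul_of_nonneg_right (by linarith) hDr)
  -- `H` as a subgraph of the cut graph
  have hHp : ∀ v w, H.Adj v w → w = hp v := by
    intro v w hvw
    have h1 := hadjH v ((hverts v).mp hvw.fst_mem)
    exact (hH.1 hvw.fst_mem).unique hvw h1
  have hHG' : ∀ v w, H.Adj v w → G'.Adj v w := by
    intro v w hvw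
    exact ⟨H.adj_sub hvw, fun Y _ => Or.inr (Or.inr (Or.inl (hHp v w hvw).symm))⟩
  let H' : G'.Subgraph :=
    { verts := H.verts
      Adj := H.Adj
      adj_sub := fun {v w} hvw => hHG' v w hvw
      edge_vert := fun {v w} hvw => H.edge_vert hvw
      symm := H.symm }
  have hH' : IsDistThreeMatching H' := by
    refine ⟨?_, ?_⟩
    · intro v hv
      exact hH.1 hv
    · intro u hu v hv huv hnA
      exact (hH.2 u hu v hv huv hnA).trans (SimpleGraph.edist_anti hle)
  have hspan : H'.spanningCoe = H.spanningCoe := rfl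
  obtain ⟨c, t, hct, hcv, hte⟩ := hF V G' D k hD0 hcardV hdeg' hbip' hnsc' hk H' hH' c₀ t₀
    (by rw [hspan]; exact hT)
  -- translation
  have hTC : TC G' (d + 2) hp (fun v => (c₀ v).val) (fun v => (t₀ s(v, hp v)).val)
      (fun v => (c v).val) (fun v w => (t s(v, w)).val) := by
    refine ⟨?_, ?_, ?_, ?_, ?_, ?_, ?_, ?_⟩
    · intro v
      have := (c v).isLt
      omega
    · intro v w hvw h
      exact hct.vertex v w hvw (Fin.ext h)
    · intro v w
      show (t s(v, w)).val = (t s(w, v)).val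
      rw [Sym2.eq_swap]
    · intro v w _
      have := (t s(v, w)).isLt
      omega
    · intro v w hvw h
      exact hct.incidence v w hvw (Fin.ext h)
    · intro v w hw w' hw' hww
      rw [Finset.mem_coe, mem_nb] at hw hw'
      by_contra hne
      exact hct.edge v w w' hw hw' hne (Fin.ext hww)
    · intro v hv
      show (c v).val = (c₀ v).val
      rw [hcv v ((hverts v).mpr hv)]
    · intro v hv
      show (t s(v, hp v)).val = (t₀ s(v, hp v)).val
      rw [hte s(v, hp v) (hadjH v hv)]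
  subst hdk
  obtain ⟨c', t', h'⟩ := tsF hA h0 hNE G d x hp (fun v => (c₀ v).val)
    (fun v => (t₀ s(v, hp v)).val) hx1 (hxD.trans hDd) (fun v => (hdeg v).trans hDd) hHD 𝒵 hTi
    hdis' ⟨_, _, hTC⟩
  have hk0 : 0 < d + 2 := by omega
  refine ⟨fun v => ⟨c' v, h'.clt v⟩,
    Sym2.lift ⟨fun v w => if h : t' v w < d + 2 then ⟨t' v w, h⟩ else ⟨0, hk0⟩, ?_⟩,
    ⟨?_, ?_, ?_⟩, ?_, ?_⟩
  · intro v w
    simp only [h'.sym v w]
  · intro v w hvw h
    exact h'.cadj v w hvw (congrArg Fin.val h)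
  · intro u v w huv huw hvw h
    simp only [Sym2.lift_mk] at h
    rw [dif_pos (h'.tlt u v huv), dif_pos (h'.tlt u w huw)] at h
    apply hvw
    apply h'.inj u _ _ (congrArg Fin.val h)
    · rw [Finset.mem_coe, mem_nb]; exact huv
    · rw [Finset.mem_coe, mem_nb]; exact huw
  · intro u v huv h
    simp only [Sym2.lift_mk] at h
    rw [dif_pos (h'.tlt u v huv)] at h
    exact h'.tc u v huv (congrArg Fin.val h)
  · intro v hv
    apply Fin.ext
    exact h'.hc v ((hverts v).mp hv)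
  · intro e he
    induction e using Sym2.ind with
    | _ a b =>
      have hab : H.Adj a b := by simpa using he
      have hb := hHp a b hab
      have ha : hp a ≠ a := (hverts a).mp hab.fst_mem
      simp only [Sym2.lift_mk]
      rw [dif_pos (h'.tlt a b (H.adj_sub hab))]
      apply Fin.ext
      show t' a b = _
      rw [hb]
      exact h'.ht a ha

end Pool.Agent.Work.MP_db9399_ts.helper46
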