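import Pool.Agent.Work.MP_db9399_ts_helper46.LHT
import Pool.Agent.Work.MP_db9399_lh_helper35.Core
import Pool.Agent.Work.MP_db9399_lc_helper85.EMBB
import Pool.Agent.Work.MP_db9399_nc_helper46.Final

/-!
# MP_db9399, THEOREM LHT: assembly (helper46)
-/

set_option autoImplicit false

namespace Pool.Agent.Work.MP_db9399_ts.helper46

open Pool.Agent.Work.MP_db9399_nc

universe u

/-- THEOREM LCH with tight spots. -/
theorem lht_holds : Stmt_LHT.{u} :=
  lht Pool.Agent.Work.MP_db9399_lh.helper35.nrm Pool.Agent.Work.MP_db9399_lc.helper85.stmt_EMBB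
    (MP_db9399_nc.helper46.stmt_SPA helper99.stmt_ABSA MP_db9399_nc_helper46.Final.spot)
    (helper51.stmt_SP0 MP_db9399_nc_helper46.Final.clean) helper99.stmt_NE

end Pool.Agent.Work.MP_db9399_ts.helper46
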