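import Pool.Agent.Work.MP_db9399_nc.Base

/-!
# MP_db9399, tight spots: local completion when there are few outer edges
-/

set_option autoImplicit false

namespace Pool.Agent.Work.MP_db9399_ts.helper46

open Finset Classical
open Pool.Agent.Work.MP_db9399_all (nb)
open Pool.Agent.Work.MP_db9399_nc

universe u

/-- local data of a tight spot -/
structure TLoc {V : Type u} [Fintype V] (G : SimpleGraph V) (d x : ℕ) (c : V → ℕ)
    (F : V → Finset ℕ) (hm : V → V) (γ a : ℕ) : Prop where
  x1 : 1 ≤ x
  xd : 100000 * x ≤ d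
  deg : ∀ v, (nb G v).card + (F v).card ≤ d
  inn : ∀ v, (nn G univ v).card ≤ x
  bnd : 1000 * ∑ v, (F v).card ≤ Fintype.card V
  clt : ∀ v, c v < d + 2
  Flt : ∀ v, ∀ b ∈ F v, b < d + 2
  cF : ∀ v, c v ∉ F v
  cadj : ∀ v w, G.Adj v w → c v ≠ c w
  ctwo : ∀ b, (univ.filter (fun v => c v = b)).card ≤ 2
  rep : ∃ D : Finset ℕ, D.card ≤ x ∧ (∀ v w, v ≠ w → c v = c w → c v ∈ D) ∧ a ∉ D ∧
    ∀ b ∈ D, b < d + 2
  γlt : γ < d + 2
  alt : a < d + 2
  aF : ∀ v, a ∉ F v
  aγ : a ≠ γ
  ac : ∀ v, c v ≠ a
  hinv : ∀ v, hm (hm v) = v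
  hadj : ∀ v, hm v ≠ v → G.Adj v (hm v) ∧ γ ≠ c v ∧ γ ∉ F v
  hcard : (univ.filter (fun v => hm v ≠ v)).card ≤ 2

theorem tloc (hA : Stmt_SPA.{u}) (h0 : Stmt_SP0.{u}) {V : Type u} [Fintype V]
    (G : SimpleGraph V) (d x : ℕ) (c : V → ℕ) (F : V → Finset ℕ) (hm : V → V) (γ a : ℕ)
    (h : TLoc G d x c F hm γ a) : ∃ t : V → V → ℕ, Fills G d c F hm γ t := by
  have hx1 := h.x1
  have hxd := h.xd
  obtain ⟨D, hDc, hDrep, haD, hDlt⟩ := h.rep
  set B : Finset ℕ := univ.biUnion F with hB
  have hBc : B.card ≤ ∑ v, (F v).card := Finset.card_biUnion_le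
  have hbnd := h.bnd
  have hFB : ∀ v, F v ⊆ B := fun v => Finset.subset_biUnion_of_mem F (Finset.mem_univ v)
  have haB : a ∉ B := by
    rw [hB, Finset.mem_biUnion]
    rintro ⟨v, _, hv⟩
    exact h.aF v hv
  set E' : Finset ℕ := insert γ (B ∪ D) with hE'
  have hE'lt : ∀ b ∈ E', b < d + 2 := by
    intro b hb
    rw [hE', Finset.mem_insert, Finset.mem_union] at hb
    rcases hb with hb | hb | hb
    · rw [hb]; exact h.γlt
    · rw [hB, Finset.mem_biUnion] at hb
      obtain ⟨v, _, hv⟩ := hb
      exact h.Flt v b hv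
    · exact hDlt b hb
  have haE' : a ∉ E' := by
    rw [hE', Finset.mem_insert, Finset.mem_union]
    rintro (hb | hb | hb)
    · exact h.aγ hb
    · exact haB hb
    · exact haD hb
  have hE'c : E'.card ≤ (∑ v, (F v).card) + x + 1 := by
    have h1 := Finset.card_insert_le γ (B ∪ D)
    have h2 := Finset.card_union_le B D
    rw [← hE'] at h1
    omega
  have spot : ∀ E'' : Finset ℕ, E' ⊆ E'' → (∀ b ∈ E'', b < d + 2) → a ∉ E'' →
      Spot G d c F E'' hm γ := by
    intro E'' hsub hlt ha
    refine ⟨h.deg, h.clt, h.cF, h.cadj, ?_, h.ctwo, hlt, ?_, ⟨a, h.alt, ha, h.ac⟩, h.hinv, ?_,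
      h.hcard⟩
    · intro v w hvw hcc
      apply hsub
      rw [hE', Finset.mem_insert, Finset.mem_union]
      exact Or.inr (Or.inr (hDrep v w hvw hcc))
    · intro v b hb
      apply hsub
      rw [hE', Finset.mem_insert, Finset.mem_union]
      exact Or.inr (Or.inl (hFB v hb))
    · intro v hv
      obtain ⟨h1, h2, h3⟩ := h.hadj v hv
      exact ⟨h1, hsub (Finset.mem_insert_self _ _), h2, h3⟩
  by_cases hsmall : Fintype.card V + E'.card ≤ d + 1
  · exact h0 G d c F E' hm γ (spot E' (subset_refl _) hE'lt haE') hsmall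
  have key : ∃ E'' : Finset ℕ, E' ⊆ E'' ∧ (∀ b ∈ E'', b < d + 2) ∧ a ∉ E'' ∧
      Odd E''.card ∧ E''.card ≤ E'.card + 1 := by
    by_cases hodd : Odd E'.card
    · exact ⟨E', subset_rfl, hE'lt, haE', hodd, by omega⟩
    · have h5 : ∃ a1 ∈ range (d + 2), a1 ∉ insert a E' := by
        by_contra hcon
        push Not at hcon
        have h6 : range (d + 2) ⊆ insert a E' := hcon
        have h7 := Finset.card_le_card h6
        have h8 := Finset.card_insert_le a E'
        rw [Finset.card_range] at h7
        have h9 : Fintype.card V ≤ d + 1 + x := by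
          by_contra hbig
          have hpos : 0 < Fintype.card V := by omega
          obtain ⟨v⟩ := Fintype.card_pos_iff.mp hpos
          have e1 := h.deg v
          have e2 := h.inn v
          have e3 : (univ : Finset V) ⊆ insert v (nb G v ∪ nn G univ v) := by
            intro w _
            rw [Finset.mem_insert, Finset.mem_union, mem_nb, mem_nn]
            by_cases hw : w = v
            · exact Or.inl hw
            · by_cases ha : G.Adj v w
              · exact Or.inr (Or.inl ha)
              · exact Or.inr (Or.inr ⟨Finset.mem_univ _, hw, ha⟩)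
          have e4 := Finset.card_le_card e3
          have e5 := Finset.card_insert_le v (nb G v ∪ nn G univ v)
          have e6 := Finset.card_union_le (nb G v) (nn G univ v)
          rw [Finset.card_univ] at e4
          omega
        omega
      obtain ⟨a1, ha1, ha1'⟩ := h5
      rw [Finset.mem_insert] at ha1'
      push Not at ha1'
      refine ⟨insert a1 E', Finset.subset_insert _ _, ?_, ?_, ?_, ?_⟩
      · intro b hb
        rw [Finset.mem_insert] at hb
        rcases hb with rfl | hb
        · exact Finset.mem_range.mp ha1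
        · exact hE'lt b hb
      · rw [Finset.mem_insert]
        rintro (hb | hb)
        · exact ha1'.1 hb.symm
        · exact haE' hb
      · rw [Finset.card_insert_of_notMem ha1'.2]
        exact (Nat.not_odd_iff_even.mp hodd).add_one
      · rw [Finset.card_insert_of_notMem ha1'.2]
  obtain ⟨E'', hsub, hlt, haE'', hodd, hcard⟩ := key
  have hV : 1000 * E'.card ≤ Fintype.card V + 1000 * x + 1000 := by omega
  have hbig : 99000 * x ≤ Fintype.card V := by omega
  refine hA G d x c F E'' hm γ (spot E'' hsub hlt haE'') h.inn ?_ hodd ?_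
  · intro b _
    have h6 := h.ctwo b
    have h7 : dirty c F b ⊆ univ.filter (fun v => c v = b) ∪
        univ.filter (fun v => (F v).Nonempty) := by
      intro v hv
      rw [mem_dirty] at hv
      rw [Finset.mem_union, Finset.mem_filter, Finset.mem_filter]
      rcases hv with hv | hv
      · exact Or.inl ⟨Finset.mem_univ _, hv⟩
      · exact Or.inr ⟨Finset.mem_univ _, ⟨b, hv⟩⟩
    have h8 := Finset.card_le_card h7
    have h9 := Finset.card_union_le (univ.filter (fun v => c v = b))
      (univ.filter (fun v => (F v).Nonempty))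
    have h10 : (univ.filter (fun v => (F v).Nonempty)).card ≤ ∑ v, (F v).card := by
      rw [Finset.card_filter]
      apply Finset.sum_le_sum
      intro v _
      split_ifs with hv
      · exact Finset.card_pos.mpr hv
      · exact Nat.zero_le _
    omega
  · have h10 : (univ.filter (fun v => (F v).Nonempty)).card ≤ ∑ v, (F v).card := by
      rw [Finset.card_filter]
      apply Finset.sum_le_sum
      intro v _
      split_ifs with hv
      · exact Finset.card_pos.mpr hv
      · exact Nat.zero_le _
    omega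

end Pool.Agent.Work.MP_db9399_ts.helper46
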